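import Pool.Agent.Run7.h941.NMainEq

set_option autoImplicit false

/-- The Eisenbud-Green-Harris conjecture for regular sequences of length `r < n` whenever
`a_i ≥ (a_1 - 1) + … + (a_{i-1} - 1)` for all `i ≥ 4` (with no condition on `a_1, a_2, a_3`); in
particular for every `r ≤ 3`. Apart from this hypothesis the statement is word for word the posed
one. -/
theorem Pool.Agent.Results.MP_237e17_al.FastFromFourth.result :
  ∀ (K : Type*) [Field K] (n r : ℕ) (hr : r < n)
    (I : Ideal (MvPolynomial (Fin n) K)) (f : Fin r → MvPolynomial (Fin n) K) (a : Fin r → ℕ),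
    (∀ i : Fin r, 3 ≤ i.val → ∑ j ∈ Finset.Iio i, (a j - 1) ≤ a i) →
    (∀ p ∈ I, ∀ d : ℕ, MvPolynomial.homogeneousComponent d p ∈ I) →
    Monotone a → (∀ i, 2 ≤ a i) →
    (∀ i, (f i).IsHomogeneous (a i)) → (∀ i, f i ∈ I) →
    RingTheory.Sequence.IsRegular (MvPolynomial (Fin n) K) (List.ofFn f) →
    ∃ J : Ideal (MvPolynomial (Fin n) K),
      (∀ p ∈ J, ∀ s ∈ p.support, MvPolynomial.monomial s (1 : K) ∈ J) ∧
      (∀ s t : Fin n →₀ ℕ, s.degree = t.degree →
          MvPolynomial.monomial s (1 : K) ∈ J →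
          (MonomialOrder.lex : MonomialOrder (Fin n)).toSyn s ≤
            (MonomialOrder.lex : MonomialOrder (Fin n)).toSyn t →
          MvPolynomial.monomial t (1 : K) ∈ J) ∧
      ∀ d : ℕ,
        Module.finrank K
          ↥(MvPolynomial.homogeneousSubmodule (Fin n) K d ⊓ Submodule.restrictScalars K I) =
        Module.finrank K
          ↥(MvPolynomial.homogeneousSubmodule (Fin n) K d ⊓
              Submodule.restrictScalars K
                (Ideal.span (Set.range fun i : Fin r => MvPolynomial.X (Fin.castLE hr.le i) ^ a i) ⊔ J)) := by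
  intro K _ n r hr I f a hF _ hm ha2 hf hfI hreg
  obtain ⟨S, h1, h2, h3⟩ := Run7.H941.N.eghw_main hr.le ha2 hm hF hf
    hreg hfI
  refine ⟨Run7.H941.N.MI K S, ?_, ?_, ?_⟩
  · intro p hp s hs
    rw [Run7.H941.N.monomial_mem_MI h1]
    exact (Run7.H941.N.mem_MI h1).mp hp s hs
  · intro s t hst hs hle
    rw [Run7.H941.N.monomial_mem_MI h1] at hs ⊢
    refine h2 _ _ ?_ ?_ hs
    · rw [Run7.H941.N.dg_coe, Run7.H941.N.dg_coe, hst]
    · rw [MonomialOrder.lex_le_iff] at hle
      exact hle
  · intro d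
    have h4 := h3 d
    rw [sup_comm] at h4
    rw [inf_comm, inf_comm (MvPolynomial.homogeneousSubmodule (Fin n) K d)]
    exact h4.symm
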